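import Pool.Agent.N176.OW.Stm2
import Pool.Agent.W66.PH
import Pool.Agent.Y751.VK.Lam
import Pool.Agent.Y957.VK.Fin1

set_option autoImplicit false

/-!
# OW/PV: smooth prime sums twisted by `n^(-iτ)` in the Vinogradov-Korobov range
-/

namespace Pool.Agent.N455.OW

open Complex Filter Topology Set MeasureTheory
open Pool.Agent.W66 (hat PS PT hat_nonneg hat_le_one hat_zero_of hat_continuous hat_lip log_gap PS_fin
  PT_full PE_triv)
open Pool.Agent.Y957.VK (S_LAM S_ZS)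

/-- the weight -/
noncomputable def w (u : ℝ) (n : ℕ) : ℝ := hat (u - Real.log n) / n

/-- the twist -/
noncomputable def er (τ : ℝ) (n : ℕ) : ℂ := cexp (-(((τ * Real.log n : ℝ) : ℂ) * I))

lemma er_norm (τ : ℝ) (n : ℕ) : ‖er τ n‖ = 1 := by
  unfold er
  rw [show -(((τ * Real.log n : ℝ) : ℂ) * I) = ((-(τ * Real.log n) : ℝ) : ℂ) * I by push_cast; ring,
    Complex.norm_exp_ofReal_mul_I]

lemma er_eq (τ : ℝ) {n : ℕ} (hn : 0 < n) : (n : ℂ) ^ (-(τ : ℂ) * I) = er τ n := by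
  have hn0 : (n : ℂ) ≠ 0 := by exact_mod_cast hn.ne'
  rw [Complex.cpow_def_of_ne_zero hn0, ← Complex.natCast_log]
  unfold er
  congr 1
  push_cast
  ring

lemma w_nonneg (u : ℝ) (n : ℕ) : 0 ≤ w u n := div_nonneg (hat_nonneg _) (by positivity)

lemma w_zero_low {u : ℝ} {n : ℕ} (hn : 0 < n) (h : (n : ℝ) ≤ Real.exp (u - 1)) : w u n = 0 := by
  unfold w
  have hn0 : (0 : ℝ) < n := by exact_mod_cast hn
  have h1 : Real.log n ≤ u - 1 := by
    rw [Real.log_le_iff_le_exp hn0]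
    exact h
  rw [hat_zero_of, zero_div]
  rw [abs_of_nonneg (by linarith)]
  linarith

lemma w_zero_high {u : ℝ} {n : ℕ} (h : Real.exp (u + 1) ≤ n) : w u n = 0 := by
  unfold w
  have hn0 : (0 : ℝ) < n := lt_of_lt_of_le (Real.exp_pos _) h
  have h1 : u + 1 ≤ Real.log n := by
    rw [Real.le_log_iff_exp_le hn0]
    exact h
  rw [hat_zero_of, zero_div]
  rw [abs_of_nonpos (by linarith)]
  linarith

lemma w_diff (u : ℝ) {n : ℕ} (hn : 0 < n) : |w u n - w u (n + 1)| ≤ 2 / (n : ℝ) ^ 2 := by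
  have hn0 : (0 : ℝ) < n := by exact_mod_cast hn
  obtain ⟨g1, g2, -⟩ := log_gap hn
  have h1 := hat_lip (u - Real.log n) (u - Real.log ((n + 1 : ℕ) : ℝ))
  have h2 : |u - Real.log n - (u - Real.log ((n + 1 : ℕ) : ℝ))| ≤ 1 / n := by
    rw [show u - Real.log n - (u - Real.log ((n + 1 : ℕ) : ℝ)) =
      Real.log ((n + 1 : ℕ) : ℝ) - Real.log n by ring, abs_of_nonneg g1]
    exact g2
  have h3 := h1.trans h2
  have h4 := hat_nonneg (u - Real.log n)
  have h5 := hat_le_one (u - Real.log n)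
  unfold w
  have e : hat (u - Real.log n) / n - hat (u - Real.log ((n + 1 : ℕ) : ℝ)) / ((n + 1 : ℕ) : ℝ) =
      (hat (u - Real.log n) - hat (u - Real.log ((n + 1 : ℕ) : ℝ))) / ((n + 1 : ℕ) : ℝ) +
      hat (u - Real.log n) * (1 / n - 1 / ((n + 1 : ℕ) : ℝ)) := by
    push_cast
    field_simp
    ring
  rw [e]
  have hn1 : (n : ℝ) ≤ ((n + 1 : ℕ) : ℝ) := by push_cast; linarith
  have h6 : |(hat (u - Real.log n) - hat (u - Real.log ((n + 1 : ℕ) : ℝ))) / ((n + 1 : ℕ) : ℝ)| ≤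
      1 / (n : ℝ) ^ 2 := by
    rw [abs_div, abs_of_pos (by linarith : (0 : ℝ) < ((n + 1 : ℕ) : ℝ))]
    calc _ ≤ (1 / (n : ℝ)) / n := div_le_div₀ (by positivity) h3 hn0 hn1
      _ = _ := by field_simp
  have h7 : |hat (u - Real.log n) * (1 / n - 1 / ((n + 1 : ℕ) : ℝ))| ≤ 1 / (n : ℝ) ^ 2 := by
    have h8 : 1 / (n : ℝ) - 1 / ((n + 1 : ℕ) : ℝ) = 1 / (n * (n + 1)) := by
      push_cast
      field_simp
      ring
    rw [h8, abs_mul, abs_of_nonneg h4, abs_of_nonneg (by positivity)]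
    calc hat (u - Real.log n) * (1 / (n * (n + 1))) ≤ 1 * (1 / (n : ℝ) ^ 2) := by
          apply mul_le_mul h5 _ (by positivity) zero_le_one
          apply one_div_le_one_div_of_le (by positivity)
          nlinarith
      _ = _ := one_mul _
  calc _ ≤ _ := abs_add_le _ _
    _ ≤ 1 / (n : ℝ) ^ 2 + 1 / (n : ℝ) ^ 2 := add_le_add h6 h7
    _ = _ := by ring

lemma abel (a : ℕ → ℂ) (f : ℕ → ℝ) {M N : ℕ} (h : M ≤ N) :
    ∑ n ∈ Finset.Ioc M N, a n * (f n : ℂ) = (∑ k ∈ Finset.Ioc M N, a k) * (f N : ℂ) +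
      ∑ n ∈ Finset.Ico M N, (∑ k ∈ Finset.Ioc M n, a k) * ((f n - f (n + 1) : ℝ) : ℂ) := by
  induction N, h using Nat.le_induction with
  | base => simp
  | succ N hN ih =>
    rw [Finset.sum_Ioc_succ_top (by omega), ih, Finset.sum_Ico_succ_top hN,
      Finset.sum_Ioc_succ_top (by omega)]
    push_cast
    ring

/-- partial summation -/
lemma part {u : ℝ} (hu : 4 ≤ u) (a : ℕ → ℂ) (M : ℕ) (hM : (M : ℝ) ≤ Real.exp (u - 1)) {B : ℝ} (hB0 : 0 ≤ B)
    (hB : ∀ n : ℕ, M ≤ n → n ≤ ⌈Real.exp (u + 1)⌉₊ → Real.exp (u - 2) ≤ n →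
      ‖∑ k ∈ Finset.Ioc M n, a k‖ ≤ B * n) :
    ‖∑ n ∈ Finset.Ioc 0 ⌈Real.exp (u + 1)⌉₊, a n * (w u n : ℂ)‖ ≤ 4 * Real.exp 3 * B := by
  obtain ⟨N, hN⟩ : ∃ N : ℕ, N = ⌈Real.exp (u + 1)⌉₊ := ⟨_, rfl⟩
  rw [← hN] at hB ⊢
  have hN1 : Real.exp (u + 1) ≤ N := by rw [hN]; exact Nat.le_ceil _
  have hN2 : (N : ℝ) ≤ Real.exp (u + 1) + 1 := by
    rw [hN]
    exact (Nat.ceil_lt_add_one (Real.exp_pos _).le).le
  have he1 : 1 ≤ Real.exp (u + 1) := Real.one_le_exp (by linarith)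
  have hMN : M ≤ N := by
    have h1 : (M : ℝ) ≤ N := by
      have := Real.exp_le_exp.2 (by linarith : u - 1 ≤ u + 1)
      linarith
    exact_mod_cast h1
  have hsplit : ∑ n ∈ Finset.Ioc 0 N, a n * (w u n : ℂ) = ∑ n ∈ Finset.Ioc M N, a n * (w u n : ℂ) := by
    symm
    apply Finset.sum_subset
    · intro n hn
      rw [Finset.mem_Ioc] at hn ⊢
      omega
    · intro n hn hn2
      rw [Finset.mem_Ioc] at hn hn2
      have h1 : n ≤ M := by omega
      rw [w_zero_low hn.1 (le_trans (by exact_mod_cast h1) hM), Complex.ofReal_zero, mul_zero]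
  rw [hsplit, abel a (w u) hMN, w_zero_high hN1, Complex.ofReal_zero, mul_zero, zero_add]
  have hterm : ∀ n ∈ Finset.Ico M N,
      ‖(∑ k ∈ Finset.Ioc M n, a k) * ((w u n - w u (n + 1) : ℝ) : ℂ)‖ ≤ 2 * B * Real.exp (2 - u) := by
    intro n hn
    rw [Finset.mem_Ico] at hn
    have hE : 0 < Real.exp (2 - u) := Real.exp_pos _
    rw [norm_mul, Complex.norm_real, Real.norm_eq_abs]
    by_cases h1 : Real.exp (u - 2) ≤ n
    · have hn0 : (0 : ℝ) < n := lt_of_lt_of_le (Real.exp_pos _) h1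
      have hn0' : 0 < n := by exact_mod_cast hn0
      calc _ ≤ (B * n) * (2 / (n : ℝ) ^ 2) := by
            apply mul_le_mul (hB n hn.1 hn.2.le h1) (w_diff u hn0') (abs_nonneg _) (by positivity)
        _ = 2 * B * (1 / n) := by field_simp
        _ ≤ 2 * B * Real.exp (2 - u) := by
            apply mul_le_mul_of_nonneg_left _ (by positivity)
            rw [show (2 : ℝ) - u = -(u - 2) by ring, Real.exp_neg, ← one_div]
            exact one_div_le_one_div_of_le (Real.exp_pos _) h1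
    · rw [not_le] at h1
      rcases Nat.eq_zero_or_pos n with h0 | h0
      · have h00 : M = 0 := by omega
        rw [h0, h00]
        simp only [Finset.Ioc_self, Finset.sum_empty, norm_zero, zero_mul]
        positivity
      have h2 : ((n + 1 : ℕ) : ℝ) ≤ Real.exp (u - 1) := by
        have h3 : Real.exp (u - 1) = Real.exp (u - 2) * Real.exp 1 := by
          rw [← Real.exp_add]; congr 1; ring
        have h4 : 2 ≤ Real.exp 1 := by
          have := Real.add_one_le_exp (1 : ℝ)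
          linarith
        have h5 : 1 ≤ Real.exp (u - 2) := Real.one_le_exp (by linarith)
        push_cast
        nlinarith
      have h3 : (n : ℝ) ≤ Real.exp (u - 1) := by
        refine le_trans ?_ h2
        push_cast
        linarith
      rw [w_zero_low h0 h3, w_zero_low (Nat.succ_pos n) h2]
      simp only [sub_self, abs_zero, mul_zero]
      positivity
  calc _ ≤ ∑ n ∈ Finset.Ico M N, ‖(∑ k ∈ Finset.Ioc M n, a k) * ((w u n - w u (n + 1) : ℝ) : ℂ)‖ :=
        norm_sum_le _ _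
    _ ≤ ∑ n ∈ Finset.Ico M N, 2 * B * Real.exp (2 - u) := Finset.sum_le_sum hterm
    _ = ((N - M : ℕ) : ℝ) * (2 * B * Real.exp (2 - u)) := by
        rw [Finset.sum_const, Nat.card_Ico, nsmul_eq_mul]
    _ ≤ (2 * Real.exp (u + 1)) * (2 * B * Real.exp (2 - u)) := by
        apply mul_le_mul_of_nonneg_right _ (by have := Real.exp_pos (2 - u); positivity)
        have : ((N - M : ℕ) : ℝ) ≤ N := by exact_mod_cast Nat.sub_le N M
        linarith
    _ = 4 * (Real.exp (u + 1) * Real.exp (2 - u)) * B := by ring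
    _ = 4 * Real.exp 3 * B := by
        rw [← Real.exp_add]
        congr 3
        ring

lemma exp_poly {c : ℝ} (hc : 0 < c) (K : ℕ) : ∃ D : ℝ, 0 < D ∧ ∀ u : ℝ, 0 < u →
    Real.exp (-(c * u)) ≤ D / u ^ K := by
  refine ⟨K.factorial / c ^ K, by positivity, fun u hu => ?_⟩
  have h1 := Real.pow_div_factorial_le_exp (c * u) (by positivity) K
  rw [Real.exp_neg, le_div_iff₀ (by positivity), inv_mul_le_iff₀ (Real.exp_pos _)]
  rw [div_le_iff₀ (by positivity)] at h1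
  rw [mul_pow] at h1
  rw [← mul_div_assoc, le_div_iff₀ (by positivity)]
  linarith

/-- pieces -/
lemma pieces (a : ℕ → ℂ) (M : ℕ) {P : ℝ} (hP : 0 ≤ P) (J : ℕ)
    (h : ∀ i < J, ∀ n : ℕ, 2 ^ i * M ≤ n → n ≤ 2 * (2 ^ i * M) → ‖∑ k ∈ Finset.Ioc (2 ^ i * M) n, a k‖ ≤ P) :
    ∀ n : ℕ, M ≤ n → n ≤ 2 ^ J * M → ‖∑ k ∈ Finset.Ioc M n, a k‖ ≤ J * P := by
  induction J with
  | zero =>
    intro n h1 h2
    have h3 : n = M := by
      rw [pow_zero, one_mul] at h2
      omega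
    rw [h3]
    simp
  | succ J ih =>
    intro n h1 h2
    have ih' := ih (fun i hi => h i (by omega))
    rcases le_total n (2 ^ J * M) with h3 | h3
    · refine (ih' n h1 h3).trans ?_
      push_cast
      nlinarith
    · have hM : M ≤ 2 ^ J * M := Nat.le_mul_of_pos_left _ (by positivity)
      rw [← Finset.sum_Ioc_consecutive _ hM h3]
      refine (norm_add_le _ _).trans ?_
      have h4 := ih' (2 ^ J * M) hM le_rfl
      have h5 := h J (Nat.lt_succ_self J) n h3 (by rw [pow_succ] at h2; linarith)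
      push_cast
      linarith

/-- the smooth sums for large `τ` -/
lemma zeta_part (hZ : S_ZS) (A : ℕ) : ∃ E η : ℝ, 0 < E ∧ 0 < η ∧ ∀ u τ : ℝ, 4 ≤ u →
    Real.exp (2 * u / 3) ≤ |τ| → |τ| ≤ Real.exp (A * u + 2) →
    ‖∑ n ∈ Finset.Ioc 0 ⌈Real.exp (u + 1)⌉₊, er τ n * (w u n : ℂ)‖ ≤ E * Real.exp (-(η * u)) := by
  obtain ⟨C, c, hc0, hc1, h⟩ := hZ
  obtain ⟨η, hη⟩ : ∃ η : ℝ, η = c / (2 + 2 * A) ^ 2 := ⟨_, rfl⟩
  obtain ⟨E, hE⟩ : ∃ E : ℝ, E = Real.exp (C * (2 + 2 * A : ℝ) ^ C) := ⟨_, rfl⟩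
  have hη0 : 0 < η := by rw [hη]; positivity
  have hη1 : η ≤ 1 := by
    rw [hη]
    rw [div_le_one (by positivity)]
    have : (1 : ℝ) ≤ (2 + 2 * A) ^ 2 := by
      have : (0 : ℝ) ≤ A := by positivity
      nlinarith
    linarith
  have hE0 : 0 < E := by rw [hE]; exact Real.exp_pos _
  refine ⟨4 * Real.exp 3 * (12 * E), η / 2, by positivity, by positivity, fun u τ hu hτ1 hτ2 => ?_⟩
  obtain ⟨M, hM⟩ : ∃ M : ℕ, M = ⌊Real.exp (u - 1)⌋₊ := ⟨_, rfl⟩
  have hM1 : (M : ℝ) ≤ Real.exp (u - 1) := by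
    rw [hM]
    exact Nat.floor_le (Real.exp_pos _).le
  have hM2 : Real.exp (u - 1) - 1 ≤ M := by
    rw [hM]
    exact (Nat.sub_one_lt_floor _).le
  have he1 : 2.7 < Real.exp 1 := by
    have := Real.exp_one_gt_d9
    linarith
  have he2 : Real.exp 1 < 2.72 := by
    have := Real.exp_one_lt_d9
    linarith
  have hexp2 : Real.exp 2 = Real.exp 1 * Real.exp 1 := by rw [← Real.exp_add]; norm_num
  have hu2 : Real.exp 2 ≤ Real.exp (u - 2) := Real.exp_le_exp.2 (by linarith)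
  have hu21 : Real.exp (u - 1) = Real.exp (u - 2) * Real.exp 1 := by
    rw [← Real.exp_add]; congr 1; ring
  have hu11 : Real.exp (u + 1) = Real.exp (u - 1) * (Real.exp 1 * Real.exp 1) := by
    rw [← hexp2, ← Real.exp_add]; congr 1; ring
  have hM3 : Real.exp (u - 2) ≤ M := by nlinarith
  have hM7 : (7 : ℝ) ≤ Real.exp (u - 2) := by nlinarith
  have hM4 : (2 : ℝ) ≤ M := by linarith
  have hM4' : 2 ≤ M := by exact_mod_cast hM4
  have hM0 : (0 : ℝ) < M := by linarith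
  have hN8 : ⌈Real.exp (u + 1)⌉₊ ≤ 2 ^ 3 * M := by
    apply Nat.ceil_le.2
    push_cast
    rw [hu11]
    have h19 : (18.9 : ℝ) ≤ Real.exp (u - 1) := by rw [hu21]; nlinarith
    have h20 : Real.exp 1 * Real.exp 1 ≤ 7.4 := by nlinarith
    nlinarith
  have hlog1 : ∀ i : ℕ, i < 3 → u / 2 ≤ Real.log ((2 ^ i * M : ℕ) : ℝ) ∧
      Real.log ((2 ^ i * M : ℕ) : ℝ) ≤ u + 1 / 2 := by
    intro i hi
    have h2i : (2 : ℝ) ^ i ≤ 4 := by
      have : i = 0 ∨ i = 1 ∨ i = 2 := by omega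
      rcases this with rfl | rfl | rfl <;> norm_num
    have h1i : (1 : ℝ) ≤ 2 ^ i := one_le_pow₀ (by norm_num)
    push_cast
    constructor
    · rw [Real.le_log_iff_exp_le (by positivity)]
      calc Real.exp (u / 2) ≤ Real.exp (u - 2) := Real.exp_le_exp.2 (by linarith)
        _ ≤ M := hM3
        _ ≤ 2 ^ i * M := by nlinarith
    · rw [Real.log_le_iff_le_exp (by positivity)]
      have h3 : Real.exp (u + 1 / 2) = Real.exp (u - 1) * Real.exp (3 / 2) := by
        rw [← Real.exp_add]; congr 1; ring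
      have h4 : 4 ≤ Real.exp (3 / 2) := by
        have h5 : Real.exp (3 / 2) ^ 2 = Real.exp 1 ^ 3 := by
          rw [← Real.exp_nat_mul, ← Real.exp_nat_mul]; norm_num
        have h6 := Real.exp_pos (3 / 2 : ℝ)
        have h7 : (16 : ℝ) ≤ Real.exp 1 ^ 3 := by
          have : (2.7 : ℝ) ^ 3 ≤ Real.exp 1 ^ 3 := pow_le_pow_left₀ (by norm_num) he1.le 3
          exact le_trans (by norm_num) this
        nlinarith
      rw [h3]
      calc 2 ^ i * (M : ℝ) ≤ 4 * Real.exp (u - 1) := by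
            apply mul_le_mul h2i hM1 hM0.le (by norm_num)
        _ ≤ _ := by nlinarith [Real.exp_pos (u - 1)]
  have hτ0 : 0 < |τ| := lt_of_lt_of_le (Real.exp_pos _) hτ1
  have hlτ1 : 2 * u / 3 ≤ Real.log |τ| := by
    rw [Real.le_log_iff_exp_le hτ0]; exact hτ1
  have hlτ2 : Real.log |τ| ≤ A * u + 2 := by
    rw [Real.log_le_iff_le_exp hτ0]; exact hτ2
  have hpc : ∀ i < 3, ∀ n : ℕ, 2 ^ i * M ≤ n → n ≤ 2 * (2 ^ i * M) →
      ‖∑ k ∈ Finset.Ioc (2 ^ i * M) n, er τ k‖ ≤ 4 * E * Real.exp (-(η / 2 * u)) * M := by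
    intro i hi n hn1 hn2
    obtain ⟨g1, g2⟩ := hlog1 i hi
    obtain ⟨L, hL⟩ : ∃ L : ℕ, L = 2 ^ i * M := ⟨_, rfl⟩
    rw [← hL] at g1 g2 hn1 hn2 ⊢
    have h1i : 1 ≤ 2 ^ i := Nat.one_le_two_pow
    have hLM : M ≤ L := by rw [hL]; exact Nat.le_mul_of_pos_left _ (by positivity)
    have hL2 : 2 ≤ L := by omega
    have hL0 : (0 : ℝ) < L := by exact_mod_cast (by omega : 0 < L)
    have hL4 : (L : ℝ) ≤ 4 * M := by
      have : L ≤ 4 * M := by
        rw [hL]
        apply Nat.mul_le_mul_right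
        have : i = 0 ∨ i = 1 ∨ i = 2 := by omega
        rcases this with rfl | rfl | rfl <;> norm_num
      exact_mod_cast this
    have hl0 : 0 < Real.log L := by linarith
    have hκ : |τ| = (L : ℝ) ^ (Real.log |τ| / Real.log L) := by
      rw [Real.rpow_def_of_pos hL0, mul_div_cancel₀ _ hl0.ne', Real.exp_log hτ0]
    have hκ1 : 1 / 2 ≤ Real.log |τ| / Real.log L := by
      rw [le_div_iff₀ hl0]
      linarith
    have hκ2 : Real.log |τ| / Real.log L ≤ 2 * A + 1 := by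
      rw [div_le_iff₀ hl0]
      have hA : (0 : ℝ) ≤ A := by positivity
      nlinarith
    obtain ⟨κ, hκe⟩ : ∃ κ : ℝ, κ = Real.log |τ| / Real.log L := ⟨_, rfl⟩
    rw [← hκe] at hκ hκ1 hκ2
    have h5 := h L n τ κ hL2 hn1 hn2 hκ1 hκ
    have h6 : ∑ k ∈ Finset.Ioc L n, er τ k = ∑ k ∈ Finset.Ioc L n, (k : ℂ) ^ (-(τ : ℂ) * I) := by
      apply Finset.sum_congr rfl
      intro k hk
      rw [Finset.mem_Ioc] at hk
      rw [er_eq τ (by omega)]
    rw [h6]
    refine h5.trans ?_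
    have hA : (0 : ℝ) ≤ A := by positivity
    have h7 : Real.exp (C * (1 + κ) ^ C) ≤ E := by
      rw [hE]
      apply Real.exp_le_exp.2
      apply mul_le_mul_of_nonneg_left _ (by positivity)
      exact pow_le_pow_left₀ (by linarith) (by linarith) _
    have h8 : η ≤ c / (1 + κ) ^ 2 := by
      rw [hη]
      apply div_le_div_of_nonneg_left hc0.le (by nlinarith)
      exact pow_le_pow_left₀ (by linarith) (by linarith) _
    have h9 : (L : ℝ) ^ (1 - c / (1 + κ) ^ 2 : ℝ) ≤ 4 * M * Real.exp (-(η / 2 * u)) := by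
      have h1L : (1 : ℝ) ≤ L := by exact_mod_cast (by omega : 1 ≤ L)
      calc (L : ℝ) ^ (1 - c / (1 + κ) ^ 2 : ℝ) ≤ (L : ℝ) ^ (1 - η : ℝ) :=
            Real.rpow_le_rpow_of_exponent_le h1L (by linarith)
        _ = L * (L : ℝ) ^ (-η) := by
            rw [sub_eq_add_neg, Real.rpow_add hL0, Real.rpow_one]
        _ ≤ (4 * M) * Real.exp (-(η / 2 * u)) := by
            apply mul_le_mul hL4 _ (Real.rpow_nonneg hL0.le _) (by positivity)
            rw [Real.rpow_def_of_pos hL0]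
            apply Real.exp_le_exp.2
            nlinarith
    calc _ ≤ E * (4 * M * Real.exp (-(η / 2 * u))) :=
          mul_le_mul h7 h9 (Real.rpow_nonneg hL0.le _) hE0.le
      _ = _ := by ring
  have hexpη : 0 < Real.exp (-(η / 2 * u)) := Real.exp_pos _
  have hmain := part hu (er τ) M hM1 (B := 12 * E * Real.exp (-(η / 2 * u))) (by positivity) (by
    intro n hn1 hn2 _
    have h1 := pieces (er τ) M (P := 4 * E * Real.exp (-(η / 2 * u)) * M) (by positivity) 3 hpc n hn1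
      (hn2.trans hN8)
    refine h1.trans ?_
    have h2 : (M : ℝ) ≤ n := by exact_mod_cast hn1
    have h3 : 0 ≤ 12 * E * Real.exp (-(η / 2 * u)) := by positivity
    have h4 := mul_le_mul_of_nonneg_left h2 h3
    push_cast
    linarith)
  refine hmain.trans (le_of_eq ?_)
  ring

/-- the integrand of `PT` -/
noncomputable def G (u τ v : ℝ) : ℂ := cexp (-(((τ * v : ℝ) : ℂ) * I)) * ((hat (u - v) : ℝ) : ℂ)

lemma G_continuous (u τ : ℝ) : Continuous (G u τ) := by
  unfold G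
  apply Continuous.mul
  · fun_prop
  · exact Complex.continuous_ofReal.comp (hat_continuous.comp (by fun_prop))

lemma ez_norm (x : ℝ) : ‖cexp (-((x : ℂ) * I))‖ = 1 := by
  rw [show -((x : ℂ) * I) = ((-x : ℝ) : ℂ) * I by push_cast; ring, Complex.norm_exp_ofReal_mul_I]

lemma ez_lip (x y : ℝ) : ‖cexp (-((x : ℂ) * I)) - cexp (-((y : ℂ) * I))‖ ≤ |x - y| := by
  have e : cexp (-((x : ℂ) * I)) - cexp (-((y : ℂ) * I)) =
      cexp (-((y : ℂ) * I)) * (cexp (I * ((y - x : ℝ) : ℂ)) - 1) := by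
    rw [mul_sub, ← Complex.exp_add, mul_one]
    congr 2
    push_cast
    ring
  rw [e, norm_mul, ez_norm, one_mul]
  refine (Real.norm_exp_I_mul_ofReal_sub_one_le (x := y - x)).trans (le_of_eq ?_)
  rw [Real.norm_eq_abs, abs_sub_comm]

lemma G_lip (u τ v v' : ℝ) : ‖G u τ v - G u τ v'‖ ≤ (1 + |τ|) * |v - v'| := by
  unfold G
  have e : cexp (-(((τ * v : ℝ) : ℂ) * I)) * ((hat (u - v) : ℝ) : ℂ) -
      cexp (-(((τ * v' : ℝ) : ℂ) * I)) * ((hat (u - v') : ℝ) : ℂ) =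
      (cexp (-(((τ * v : ℝ) : ℂ) * I)) - cexp (-(((τ * v' : ℝ) : ℂ) * I))) * ((hat (u - v) : ℝ) : ℂ) +
      cexp (-(((τ * v' : ℝ) : ℂ) * I)) * ((hat (u - v) - hat (u - v') : ℝ) : ℂ) := by
    push_cast
    ring
  rw [e]
  have h1 : ‖(cexp (-(((τ * v : ℝ) : ℂ) * I)) - cexp (-(((τ * v' : ℝ) : ℂ) * I))) *
      ((hat (u - v) : ℝ) : ℂ)‖ ≤ |τ| * |v - v'| := by
    rw [norm_mul, Complex.norm_real, Real.norm_of_nonneg (hat_nonneg _)]
    have h2 := ez_lip (τ * v) (τ * v')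
    rw [← mul_sub, abs_mul] at h2
    calc _ ≤ (|τ| * |v - v'|) * 1 := mul_le_mul h2 (hat_le_one _) (hat_nonneg _) (by positivity)
      _ = _ := mul_one _
  have h3 : ‖cexp (-(((τ * v' : ℝ) : ℂ) * I)) * ((hat (u - v) - hat (u - v') : ℝ) : ℂ)‖ ≤ |v - v'| := by
    rw [norm_mul, ez_norm, one_mul, Complex.norm_real, Real.norm_eq_abs]
    refine (hat_lip _ _).trans (le_of_eq ?_)
    rw [show u - v - (u - v') = -(v - v') by ring, abs_neg]
  calc _ ≤ _ := norm_add_le _ _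
    _ ≤ |τ| * |v - v'| + |v - v'| := add_le_add h1 h3
    _ = _ := by ring

lemma G_norm (u τ v : ℝ) : ‖G u τ v‖ ≤ 1 := by
  unfold G
  rw [norm_mul, ez_norm, one_mul, Complex.norm_real, Real.norm_of_nonneg (hat_nonneg _)]
  exact hat_le_one _

lemma cell_le (u τ : ℝ) {n : ℕ} (hn : 0 < n) :
    ‖er τ n * (w u n : ℂ) - ∫ v in (Real.log n)..(Real.log ((n + 1 : ℕ) : ℝ)), G u τ v‖ ≤
      (2 + |τ|) / (n : ℝ) ^ 2 := by
  have hn0 : (0 : ℝ) < n := by exact_mod_cast hn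
  have hnc : (n : ℂ) ≠ 0 := by exact_mod_cast hn.ne'
  obtain ⟨g1, g2, g3⟩ := log_gap hn
  obtain ⟨a, ha⟩ : ∃ a : ℝ, a = Real.log n := ⟨_, rfl⟩
  obtain ⟨b, hb⟩ : ∃ b : ℝ, b = Real.log ((n + 1 : ℕ) : ℝ) := ⟨_, rfl⟩
  have h1 : er τ n * (w u n : ℂ) = (1 / (n : ℂ)) * G u τ a := by
    unfold er w G
    rw [ha]
    push_cast
    ring
  rw [h1]
  rw [← ha, ← hb] at g1 g2 g3 ⊢
  have h2 : ∫ v in a..b, G u τ v = (∫ v in a..b, (G u τ v - G u τ a)) + ((b - a : ℝ) : ℂ) * G u τ a := by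
    rw [intervalIntegral.integral_sub ((G_continuous u τ).intervalIntegrable _ _)
      (continuous_const.intervalIntegrable _ _), intervalIntegral.integral_const]
    rw [Complex.real_smul]
    ring
  have h3 : ‖∫ v in a..b, (G u τ v - G u τ a)‖ ≤ ((1 + |τ|) * (1 / n)) * |b - a| := by
    apply intervalIntegral.norm_integral_le_of_norm_le_const
    intro v hv
    rw [Set.uIoc_of_le (by linarith)] at hv
    refine (G_lip u τ v a).trans ?_
    apply mul_le_mul_of_nonneg_left _ (by positivity)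
    rw [abs_of_nonneg (by linarith [hv.1])]
    linarith [hv.2]
  have h4 : ((1 + |τ|) * (1 / n)) * |b - a| ≤ (1 + |τ|) / (n : ℝ) ^ 2 := by
    rw [abs_of_nonneg g1]
    calc ((1 + |τ|) * (1 / n)) * (b - a) ≤ ((1 + |τ|) * (1 / n)) * (1 / n) :=
          mul_le_mul_of_nonneg_left g2 (by positivity)
      _ = _ := by field_simp
  have h5 : ‖((b - a - 1 / n : ℝ) : ℂ) * G u τ a‖ ≤ 1 / (n : ℝ) ^ 2 := by
    rw [norm_mul, Complex.norm_real, Real.norm_eq_abs]
    calc _ ≤ 1 / (n : ℝ) ^ 2 * 1 := mul_le_mul g3 (G_norm _ _ _) (norm_nonneg _) (by positivity)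
      _ = _ := mul_one _
  have e : (1 / (n : ℂ)) * G u τ a - ∫ v in a..b, G u τ v =
      -((∫ v in a..b, (G u τ v - G u τ a)) + ((b - a - 1 / n : ℝ) : ℂ) * G u τ a) := by
    rw [h2]
    push_cast
    ring
  rw [e, norm_neg]
  calc _ ≤ _ := norm_add_le _ _
    _ ≤ (1 + |τ|) / (n : ℝ) ^ 2 + 1 / (n : ℝ) ^ 2 := add_le_add (h3.trans h4) h5
    _ = _ := by ring

lemma cell_zero (u τ : ℝ) {n : ℕ} (hn : 0 < n) (h : ((n + 1 : ℕ) : ℝ) ≤ Real.exp (u - 1)) :
    er τ n * (w u n : ℂ) - ∫ v in (Real.log n)..(Real.log ((n + 1 : ℕ) : ℝ)), G u τ v = 0 := by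
  have hn0 : (0 : ℝ) < n := by exact_mod_cast hn
  have h1 : (n : ℝ) ≤ Real.exp (u - 1) := by
    refine le_trans ?_ h
    push_cast
    linarith
  rw [w_zero_low hn h1, Complex.ofReal_zero, mul_zero, zero_sub, neg_eq_zero]
  apply intervalIntegral.integral_zero_ae
  refine Eventually.of_forall fun v hv => ?_
  rw [Set.uIoc_of_le (by linarith [(log_gap hn).1])] at hv
  have h2 : Real.log ((n + 1 : ℕ) : ℝ) ≤ u - 1 := by
    rw [Real.log_le_iff_le_exp (by positivity)]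
    exact h
  unfold G
  rw [hat_zero_of, Complex.ofReal_zero, mul_zero]
  rw [abs_of_nonneg (by linarith [hv.2])]
  linarith [hv.2]

lemma sum_Ioc_range (f : ℕ → ℂ) (N : ℕ) :
    ∑ m ∈ Finset.Ioc 0 N, f m = ∑ k ∈ Finset.range N, f (k + 1) := by
  induction N with
  | zero => simp
  | succ n ih => rw [Finset.sum_Ioc_succ_top (by omega), ih, Finset.sum_range_succ]

lemma PT_sum (u τ : ℝ) (hu : 1 ≤ u) {N : ℕ} (hN : Real.exp (u + 1) ≤ N) :
    PT u τ = ∑ n ∈ Finset.Ioc 0 N, ∫ v in (Real.log n)..(Real.log ((n + 1 : ℕ) : ℝ)), G u τ v := by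
  have hG0 : ∀ v, u + 1 ≤ v → G u τ v = 0 := by
    intro v hv
    unfold G
    rw [hat_zero_of, Complex.ofReal_zero, mul_zero]
    rw [abs_of_nonpos (by linarith)]
    linarith
  have hN1 : u + 1 ≤ Real.log ((N + 1 : ℕ) : ℝ) := by
    rw [Real.le_log_iff_exp_le (by positivity)]
    push_cast
    linarith
  rw [sum_Ioc_range]
  have h2 := intervalIntegral.sum_integral_adjacent_intervals (μ := volume) (f := G u τ)
    (a := fun k : ℕ => Real.log ((k + 1 : ℕ) : ℝ)) (n := N)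
    (fun k _ => (G_continuous u τ).intervalIntegrable _ _)
  rw [h2]
  simp only [Nat.zero_add, Nat.cast_one, Real.log_one]
  rw [intervalIntegral.integral_of_le (by linarith)]
  unfold PT
  apply setIntegral_eq_of_subset_of_forall_sdiff_eq_zero measurableSet_Ioi Ioc_subset_Ioi_self
  rintro v ⟨hv1, hv2⟩
  rw [Set.mem_Ioi] at hv1
  rw [Set.mem_Ioc, not_and, not_le] at hv2
  exact hG0 v (by linarith [hv2 hv1])

/-- the smooth sums for small `τ` -/
lemma small_part {u : ℝ} (hu : 4 ≤ u) (τ : ℝ) :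
    ‖∑ n ∈ Finset.Ioc 0 ⌈Real.exp (u + 1)⌉₊, er τ n * (w u n : ℂ) - PT u τ‖ ≤
      2 * Real.exp 5 * (2 + |τ|) * Real.exp (-u) := by
  obtain ⟨N, hN⟩ : ∃ N : ℕ, N = ⌈Real.exp (u + 1)⌉₊ := ⟨_, rfl⟩
  rw [← hN]
  have hN1 : Real.exp (u + 1) ≤ N := by rw [hN]; exact Nat.le_ceil _
  have hN2 : (N : ℝ) ≤ Real.exp (u + 1) + 1 := by
    rw [hN]
    exact (Nat.ceil_lt_add_one (Real.exp_pos _).le).le
  have he1 : 1 ≤ Real.exp (u + 1) := Real.one_le_exp (by linarith)
  rw [PT_sum u τ (by linarith) hN1, ← Finset.sum_sub_distrib]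
  have hterm : ∀ n ∈ Finset.Ioc 0 N,
      ‖er τ n * (w u n : ℂ) - ∫ v in (Real.log n)..(Real.log ((n + 1 : ℕ) : ℝ)), G u τ v‖ ≤
      (2 + |τ|) * Real.exp (4 - 2 * u) := by
    intro n hn
    rw [Finset.mem_Ioc] at hn
    by_cases h1 : Real.exp (u - 2) ≤ n
    · refine (cell_le u τ hn.1).trans ?_
      have h3 : Real.exp (4 - 2 * u) = 1 / Real.exp (u - 2) ^ 2 := by
        rw [← Real.exp_nat_mul, one_div, ← Real.exp_neg]
        congr 1
        push_cast
        ring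
      rw [h3, ← mul_one_div]
      apply mul_le_mul_of_nonneg_left _ (by positivity)
      apply one_div_le_one_div_of_le (by have := Real.exp_pos (u - 2); positivity)
      exact pow_le_pow_left₀ (Real.exp_pos _).le h1 2
    · rw [not_le] at h1
      have h2 : ((n + 1 : ℕ) : ℝ) ≤ Real.exp (u - 1) := by
        have h3 : Real.exp (u - 1) = Real.exp (u - 2) * Real.exp 1 := by
          rw [← Real.exp_add]; congr 1; ring
        have h4 : 2 ≤ Real.exp 1 := by
          have := Real.add_one_le_exp (1 : ℝ)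
          linarith
        have h5 : 1 ≤ Real.exp (u - 2) := Real.one_le_exp (by linarith)
        push_cast
        nlinarith
      rw [cell_zero u τ hn.1 h2, norm_zero]
      have := Real.exp_pos (4 - 2 * u)
      positivity
  calc _ ≤ _ := norm_sum_le _ _
    _ ≤ ∑ n ∈ Finset.Ioc 0 N, (2 + |τ|) * Real.exp (4 - 2 * u) := Finset.sum_le_sum hterm
    _ = (N : ℝ) * ((2 + |τ|) * Real.exp (4 - 2 * u)) := by
        rw [Finset.sum_const, Nat.card_Ioc, nsmul_eq_mul, Nat.sub_zero]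
    _ ≤ (2 * Real.exp (u + 1)) * ((2 + |τ|) * Real.exp (4 - 2 * u)) := by
        apply mul_le_mul_of_nonneg_right (by linarith)
        have := Real.exp_pos (4 - 2 * u)
        positivity
    _ = 2 * (Real.exp (u + 1) * Real.exp (4 - 2 * u)) * (2 + |τ|) := by ring
    _ = 2 * (Real.exp 5 * Real.exp (-u)) * (2 + |τ|) := by
        rw [← Real.exp_add, ← Real.exp_add]
        congr 3
        ring
    _ = _ := by ring

lemma PT_large {u ξ : ℝ} (hu : 1 ≤ u) (hξ : ξ ≠ 0) : ‖PT u (2 * Real.pi * ξ)‖ ≤ (1 / |ξ|) ^ 2 := by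
  rw [PT_full hu]
  have e : (fun v : ℝ => ((hat (u - v) : ℝ) : ℂ)) = fun v => Pool.Agent.W66.triC 1 (v - u) := by
    ext v
    unfold Pool.Agent.W66.triC Pool.Agent.W66.tri
    rw [div_one, div_one, one_mul, ← Pool.Agent.W66.hat_neg, neg_sub]
  rw [e, Pool.Agent.W66.four_shift, Pool.Agent.W66.four_triC one_pos, norm_mul, ez_norm, one_mul,
    norm_pow]
  apply pow_le_pow_left₀ (norm_nonneg _)
  have := Pool.Agent.W66.norm_four_box_le one_pos hξ
  rwa [one_mul] at this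

/-- the smooth sums, all `τ` -/
lemma smooth_all (hZ : S_ZS) (A K : ℕ) : ∃ C : ℝ, 0 ≤ C ∧ ∀ u ξ : ℝ, 4 ≤ u → |ξ| ≤ Real.exp (A * u) →
    ‖∑ n ∈ Finset.Ioc 0 ⌈Real.exp (u + 1)⌉₊, er (2 * Real.pi * ξ) n * (w u n : ℂ) -
      PT u (2 * Real.pi * ξ)‖ ≤ C / u ^ K := by
  obtain ⟨E, η, hE, hη, h⟩ := zeta_part hZ A
  obtain ⟨D1, hD1, h1⟩ := exp_poly hη K
  obtain ⟨D2, hD2, h2⟩ := exp_poly (c := 1 / 3) (by norm_num) K
  refine ⟨E * D1 + (6 * Real.exp 5 + 64) * D2, by positivity, fun u ξ hu hξ => ?_⟩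
  have hu0 : 0 < u := by linarith
  have hpi := Real.pi_gt_three
  have hpi2 := Real.pi_lt_d2
  obtain ⟨τ, hτ⟩ : ∃ τ : ℝ, τ = 2 * Real.pi * ξ := ⟨_, rfl⟩
  have hτξ : |τ| = 2 * Real.pi * |ξ| := by
    rw [hτ, abs_mul, abs_of_pos (by positivity)]
  have hd1 := h1 u hu0
  have hd2 := h2 u hu0
  have hgoal : (E * D1 + (6 * Real.exp 5 + 64) * D2) / u ^ K =
      E * (D1 / u ^ K) + (6 * Real.exp 5 + 64) * (D2 / u ^ K) := by ring
  have hp1 : 0 ≤ D1 / u ^ K := by positivity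
  have hp2 : 0 ≤ D2 / u ^ K := by positivity
  have he5 : 0 < Real.exp 5 := Real.exp_pos _
  rw [hgoal]
  have hexp3 : (fun x : ℝ => x) (Real.exp (-(1 / 3 * u))) = Real.exp (2 * u / 3) * Real.exp (-u) := by
    rw [← Real.exp_add]
    congr 1
    ring
  rcases le_or_gt |τ| (Real.exp (2 * u / 3)) with hc | hc
  · have h3 := small_part hu (2 * Real.pi * ξ)
    refine h3.trans ?_
    rw [← hτ]
    have h4 : 1 ≤ Real.exp (2 * u / 3) := Real.one_le_exp (by positivity)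
    have h5 : 2 * Real.exp 5 * (2 + |τ|) * Real.exp (-u) ≤ 6 * Real.exp 5 * Real.exp (-(1 / 3 * u)) := by
      have h6 : 2 * Real.exp 5 * (2 + |τ|) * Real.exp (-u) ≤
          2 * Real.exp 5 * (3 * Real.exp (2 * u / 3)) * Real.exp (-u) := by
        apply mul_le_mul_of_nonneg_right _ (Real.exp_pos _).le
        apply mul_le_mul_of_nonneg_left _ (by positivity)
        linarith
      refine h6.trans (le_of_eq ?_)
      have h7 : Real.exp (-(1 / 3 * u)) = Real.exp (2 * u / 3) * Real.exp (-u) := hexp3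
      rw [h7]
      ring
    refine h5.trans ?_
    have h8 : 6 * Real.exp 5 * Real.exp (-(1 / 3 * u)) ≤ 6 * Real.exp 5 * (D2 / u ^ K) :=
      mul_le_mul_of_nonneg_left hd2 (by positivity)
    nlinarith
  · have hτ2 : |τ| ≤ Real.exp (A * u + 2) := by
      rw [hτξ, Real.exp_add, mul_comm (Real.exp (A * u))]
      apply mul_le_mul _ hξ (abs_nonneg _) (Real.exp_pos _).le
      have h9 : Real.exp 2 = Real.exp 1 * Real.exp 1 := by rw [← Real.exp_add]; norm_num
      have he1 : 2.7 < Real.exp 1 := by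
        have := Real.exp_one_gt_d9
        linarith
      rw [h9]
      nlinarith
    have h3 := h u τ hu hc.le hτ2
    rw [hτ] at h3
    have hτpos : 0 < |τ| := lt_trans (Real.exp_pos _) hc
    have hξpos : 0 < |ξ| := by
      rw [hτξ] at hτpos
      by_contra hcon
      have : |ξ| = 0 := le_antisymm (not_lt.1 hcon) (abs_nonneg _)
      rw [this, mul_zero] at hτpos
      exact lt_irrefl _ hτpos
    have h4 := PT_large (u := u) (ξ := ξ) (by linarith) (abs_pos.1 hξpos)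
    have h5 : (1 / |ξ|) ^ 2 ≤ 64 * Real.exp (-(1 / 3 * u)) := by
      have h6 : Real.exp (2 * u / 3) / 8 ≤ |ξ| := by
        rw [hτξ] at hc
        have h7 : 2 * Real.pi * |ξ| ≤ 8 * |ξ| := by nlinarith
        linarith
      have h8 : 1 / |ξ| ≤ 8 * Real.exp (-(2 * u / 3)) := by
        rw [div_le_iff₀ hξpos]
        have h9 : Real.exp (-(2 * u / 3)) * Real.exp (2 * u / 3) = 1 := by
          rw [← Real.exp_add, neg_add_cancel, Real.exp_zero]
        have h10 := Real.exp_pos (-(2 * u / 3))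
        nlinarith [mul_le_mul_of_nonneg_left h6 h10.le]
      have h11 : Real.exp (-(2 * u / 3)) ≤ Real.exp (-(1 / 3 * u)) := Real.exp_le_exp.2 (by linarith)
      have h12 : Real.exp (-(2 * u / 3)) ≤ 1 := by
        rw [← Real.exp_zero]
        exact Real.exp_le_exp.2 (by linarith)
      have h13 := Real.exp_pos (-(2 * u / 3))
      calc (1 / |ξ|) ^ 2 ≤ (8 * Real.exp (-(2 * u / 3))) ^ 2 := pow_le_pow_left₀ (by positivity) h8 2
        _ = 64 * (Real.exp (-(2 * u / 3)) * Real.exp (-(2 * u / 3))) := by ring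
        _ ≤ 64 * (Real.exp (-(1 / 3 * u)) * 1) := by
            apply mul_le_mul_of_nonneg_left _ (by norm_num)
            exact mul_le_mul h11 h12 h13.le (Real.exp_pos _).le
        _ = _ := by ring
    have h14 : E * Real.exp (-(η * u)) ≤ E * (D1 / u ^ K) := mul_le_mul_of_nonneg_left hd1 hE.le
    refine (norm_sub_le _ _).trans ?_
    have h15 : 0 ≤ 6 * Real.exp 5 * (D2 / u ^ K) := by positivity
    nlinarith

/-- prime sums -/
theorem pv_of (hL : S_LAM) (hZ : S_ZS) : Pool.Agent.N176.OW.S_PV := by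
  intro A K
  obtain ⟨C1, h1⟩ := hL (2 * A + 2) K
  obtain ⟨C2, hC2, h2⟩ := smooth_all hZ A K
  refine ⟨31 * 4 ^ K + 4 * Real.exp 3 * (|C1| * 2 ^ K) + C2, fun u ξ hu hξ => ?_⟩
  have hu0 : 0 < u := by linarith
  have huK : 0 < u ^ K := by positivity
  have hgoal : (31 * 4 ^ K + 4 * Real.exp 3 * (|C1| * 2 ^ K) + C2) / u ^ K =
      31 * 4 ^ K / u ^ K + 4 * Real.exp 3 * (|C1| * 2 ^ K / u ^ K) + C2 / u ^ K := by ring
  have he3 : 0 < Real.exp 3 := Real.exp_pos _
  have hp1 : 0 ≤ 31 * 4 ^ K / u ^ K := by positivity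
  have hp2 : 0 ≤ 4 * Real.exp 3 * (|C1| * 2 ^ K / u ^ K) := by positivity
  have hp3 : 0 ≤ C2 / u ^ K := by positivity
  rw [hgoal]
  rcases le_or_gt 4 u with hu4 | hu4
  · obtain ⟨τ, hτ⟩ : ∃ τ : ℝ, τ = 2 * Real.pi * ξ := ⟨_, rfl⟩
    have hpi := Real.pi_gt_three
    have hpi2 := Real.pi_lt_d2
    have hτξ : |τ| = 2 * Real.pi * |ξ| := by
      rw [hτ, abs_mul, abs_of_pos (by positivity)]
    have hτ2 : |τ| ≤ Real.exp (A * u + 2) := by
      rw [hτξ, Real.exp_add, mul_comm (Real.exp (A * u))]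
      apply mul_le_mul _ hξ (abs_nonneg _) (Real.exp_pos _).le
      have h9 : Real.exp 2 = Real.exp 1 * Real.exp 1 := by rw [← Real.exp_add]; norm_num
      have he1 : 2.7 < Real.exp 1 := by
        have := Real.exp_one_gt_d9
        linarith
      rw [h9]
      nlinarith
    have h3 := part hu4 (fun n => ((ArithmeticFunction.vonMangoldt n : ℂ) - 1) * er τ n) 0
      (by have := Real.exp_pos (u - 1); simpa using this.le) (B := |C1| * 2 ^ K / u ^ K) (by positivity) (by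
      intro n _ _ hn
      have hn0 : (0 : ℝ) < n := lt_of_lt_of_le (Real.exp_pos _) hn
      have hn2 : 2 ≤ n := by
        have h4 : u - 2 + 1 ≤ Real.exp (u - 2) := Real.add_one_le_exp _
        have h5 : (2 : ℝ) ≤ n := by linarith
        exact_mod_cast h5
      have hlog : u / 2 ≤ Real.log n := by
        rw [Real.le_log_iff_exp_le hn0]
        exact le_trans (Real.exp_le_exp.2 (by linarith)) hn
      have hτn : |τ| ≤ (n : ℝ) ^ (2 * A + 2) := by
        refine hτ2.trans ?_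
        have h6 : (n : ℝ) ^ (2 * A + 2) = Real.exp (Real.log n * (2 * A + 2)) := by
          rw [← Real.rpow_natCast, Real.rpow_def_of_pos hn0]
          push_cast
          rfl
        rw [h6]
        apply Real.exp_le_exp.2
        have hA : (0 : ℝ) ≤ A := by positivity
        nlinarith
      have h7 := h1 n τ hn2 hτn
      have h8 : ∑ k ∈ Finset.Ioc 0 n, ((ArithmeticFunction.vonMangoldt k : ℂ) - 1) * er τ k =
          ∑ k ∈ Finset.Icc 1 n, ((ArithmeticFunction.vonMangoldt k : ℂ) - 1) * (k : ℂ) ^ (-(τ : ℂ) * I) := by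
        apply Finset.sum_congr rfl
        intro k hk
        rw [Finset.mem_Ioc] at hk
        rw [er_eq τ hk.1]
      rw [h8]
      refine h7.trans ?_
      have hlog0 : 0 < Real.log n := by linarith
      calc C1 * n / Real.log n ^ K ≤ |C1| * n / (u / 2) ^ K := by
            apply div_le_div₀ (by positivity) _ (by positivity)
            · exact pow_le_pow_left₀ (by positivity) hlog K
            · exact mul_le_mul_of_nonneg_right (le_abs_self _) hn0.le
        _ = |C1| * 2 ^ K / u ^ K * n := by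
            rw [div_pow]
            field_simp)
    have h4 := h2 u ξ hu4 hξ
    have h5 : PS u (2 * Real.pi * ξ) - PT u (2 * Real.pi * ξ) =
        ∑ n ∈ Finset.Ioc 0 ⌈Real.exp (u + 1)⌉₊,
          (((ArithmeticFunction.vonMangoldt n : ℂ) - 1) * er τ n) * (w u n : ℂ) +
        (∑ n ∈ Finset.Ioc 0 ⌈Real.exp (u + 1)⌉₊, er (2 * Real.pi * ξ) n * (w u n : ℂ) -
          PT u (2 * Real.pi * ξ)) := by
      rw [PS_fin u ξ _ (Nat.le_ceil _), ← add_sub_assoc, ← Finset.sum_add_distrib]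
      congr 1
      apply Finset.sum_congr rfl
      intro n _
      rw [hτ]
      unfold er w
      push_cast
      ring
    rw [h5]
    refine (norm_add_le _ _).trans ?_
    linarith [add_le_add h3 h4]
  · have h3 := PE_triv hu ξ
    have h4 : (u + 1) * (u + 2) + 1 ≤ 31 := by nlinarith
    have h5 : (31 : ℝ) ≤ 31 * 4 ^ K / u ^ K := by
      rw [le_div_iff₀ huK]
      apply mul_le_mul_of_nonneg_left _ (by norm_num)
      exact pow_le_pow_left₀ hu0.le hu4.le K
    linarith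

/-- Job PV. -/
theorem pv : Pool.Agent.N176.OW.S_PV :=
  pv_of (Pool.Agent.Y751.VK.lam Pool.Agent.Y957.VK.inv_all) Pool.Agent.Y957.VK.zs_all

end Pool.Agent.N455.OW
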